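import Pool.Agent.W114.HL.Stm
import Pool.Agent.W933.PQCC

/-!
# Project HL, task CP: the count of primes for a fixed cofactor `g`
-/

set_option autoImplicit false

namespace Pool.Agent.W554.HL

open Finset Pool.Agent.W114.HL
open Pool.Agent.H951R4.OD (ch PI Ex mert_le sum_sq_inv)
open Pool.Agent.W933.PQCC (mem_PI sum_inv_le cnt_mul)

theorem per_mul {D : Dat} (h : Ax D) {q : ℕ} (hq : q.Prime) (n j : ℕ) :
    D.T q (n + q ^ 2 * j) ↔ D.T q n := by
  induction j with
  | zero => simp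
  | succ j ih =>
    rw [Nat.mul_succ, ← add_assoc, h.per q _ hq, ih]

/-- the second alternative of the sieve -/
def SA (D : Dat) (g q n : ℕ) : Prop :=
  D.T q (g * n) ∧ ∃ j : ℕ, (n : ZMod q) ^ j = -1

/-- the primes with a second class -/
def BQ (D : Dat) (g q : ℕ) : Prop := D.Q q ∧ ¬ q ∣ D.c0 ∧ ¬ q ∣ g

theorem SA_ndvd {D : Dat} (h : Ax D) {g q n : ℕ} (hq : q.Prime) (hc : ¬ q ∣ D.c0)
    (hs : SA D g q n) : ¬ q ∣ n := by
  obtain ⟨-, j, hj⟩ := hs
  intro hd
  have hq2 : q ≠ 2 := by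
    rintro rfl
    exact hc h.two
  have : Fact q.Prime := ⟨hq⟩
  have : Fact (2 < q) := ⟨lt_of_le_of_ne hq.two_le (Ne.symm hq2)⟩
  have h0 : (n : ZMod q) = 0 := by rwa [ZMod.natCast_eq_zero_iff]
  rw [h0] at hj
  rcases Nat.eq_zero_or_pos j with hj0 | hj0
  · rw [hj0, pow_zero] at hj
    exact ZMod.neg_one_ne_one hj.symm
  · rw [zero_pow (by omega)] at hj
    have : (1 : ZMod q) = 0 := by
      have := congrArg (fun x => -x) hj
      simpa using this.symm
    exact one_ne_zero this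

theorem SA_per {D : Dat} (h : Ax D) (g n : ℕ) {q : ℕ} (hq : q.Prime) :
    SA D g q (n + q ^ 2) ↔ SA D g q n := by
  unfold SA
  have h2 : D.T q (g * (n + q ^ 2)) ↔ D.T q (g * n) := by
    have e : g * (n + q ^ 2) = g * n + q ^ 2 * g := by ring
    rw [e]
    exact per_mul h hq _ _
  have h3 : ((n + q ^ 2 : ℕ) : ZMod q) = (n : ZMod q) := by
    push_cast
    rw [ZMod.natCast_self]
    simp
  rw [h2, h3]

open scoped Classical in
/-- the sieving functions -/
noncomputable def hh (D : Dat) (g q n : ℕ) : ℝ :=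
  if q ∣ n ∨ (BQ D g q ∧ SA D g q n) then 1 else 0

theorem hh01 (D : Dat) (g q n : ℕ) : hh D g q n = 0 ∨ hh D g q n = 1 := by
  unfold hh
  split_ifs <;> simp

open scoped Classical in
theorem hh_per {D : Dat} (h : Ax D) (g n : ℕ) {q : ℕ} (hq : q.Prime) :
    hh D g q (n + q ^ 2) = hh D g q n := by
  unfold hh
  have h1 : q ∣ n + q ^ 2 ↔ q ∣ n := Nat.dvd_add_left (dvd_pow_self q (by norm_num))
  exact if_congr (or_congr h1 (and_congr Iff.rfl (SA_per h g n hq))) rfl rfl

/-- the mean -/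
noncomputable def mean (D : Dat) (g q : ℕ) : ℝ :=
  (∑ n ∈ range (q ^ 2), hh D g q n) / (q : ℝ) ^ 2

open scoped Classical in
theorem mean_eq1 (D : Dat) (g : ℕ) {q : ℕ} (hq : q.Prime)
    (hb : ¬ BQ D g q) : mean D g q = 1 / q := by
  have e1 : ∀ n ∈ range (q ^ 2), hh D g q n = if q ∣ n then (1 : ℝ) else 0 := by
    intro n _
    unfold hh
    have : (q ∣ n ∨ (BQ D g q ∧ SA D g q n)) ↔ q ∣ n := by
      constructor
      · rintro (h1 | ⟨h1, h2⟩)
        · exact h1
        · exact absurd h1 hb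
      · exact Or.inl
    simp only [this]
  have hq0 : (0 : ℝ) < q := by exact_mod_cast hq.pos
  unfold mean
  rw [Finset.sum_congr rfl e1, cnt_mul hq.pos]
  field_simp

open scoped Classical in
theorem mean_eq2 {D : Dat} (h : Ax D) (g : ℕ) {q : ℕ} (hq : q.Prime)
    (hb : BQ D g q) : mean D g q = 1 / q +
      (((range (q ^ 2)).filter (fun n => SA D g q n)).card : ℝ) / (q : ℝ) ^ 2 := by
  have e1 : ∀ n ∈ range (q ^ 2), hh D g q n = (if q ∣ n then (1 : ℝ) else 0) +
      (if SA D g q n then (1 : ℝ) else 0) := by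
    intro n _
    unfold hh
    by_cases h2 : SA D g q n
    · have h4 : ¬ q ∣ n := SA_ndvd h hq hb.2.1 h2
      rw [if_pos (Or.inr ⟨hb, h2⟩), if_neg h4, if_pos h2, zero_add]
    · have : (q ∣ n ∨ (BQ D g q ∧ SA D g q n)) ↔ q ∣ n := by
        constructor
        · rintro (h1 | ⟨_, h1⟩)
          · exact h1
          · exact absurd h1 h2
        · exact Or.inl
      rw [if_neg h2, add_zero]
      simp only [this]
  have hq0 : (0 : ℝ) < q := by exact_mod_cast hq.pos
  unfold mean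
  rw [Finset.sum_congr rfl e1, Finset.sum_add_distrib, cnt_mul hq.pos, add_div]
  congr 1
  · field_simp
  · congr 1
    rw [Finset.sum_boole]

open scoped Classical in
theorem mean_low {D : Dat} (h : Ax D) (g : ℕ) {q : ℕ} (hq : q.Prime) :
    1 / (q : ℝ) + (if BQ D g q then 1 / (q : ℝ) else 0) - D.κ * (1 / (q : ℝ) ^ 2) ≤
      mean D g q := by
  have hq0 : (0 : ℝ) < q := by exact_mod_cast hq.pos
  have hκ : 0 ≤ D.κ := by linarith [h.κ1]
  have hk2 : 0 ≤ D.κ * (1 / (q : ℝ) ^ 2) := by positivity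
  by_cases hb : BQ D g q
  · rw [mean_eq2 h g hq hb, if_pos hb]
    have h1 := h.fixQ q g hq hb.2.1 hb.1 hb.2.2
    have h2 : (q : ℝ) - D.κ ≤ (((range (q ^ 2)).filter (fun n => SA D g q n)).card : ℝ) := by
      unfold SA
      convert h1
    have h3 : ((q : ℝ) - D.κ) / (q : ℝ) ^ 2 ≤
        (((range (q ^ 2)).filter (fun n => SA D g q n)).card : ℝ) / (q : ℝ) ^ 2 :=
      div_le_div_of_nonneg_right h2 (by positivity)
    have h4 : ((q : ℝ) - D.κ) / (q : ℝ) ^ 2 = 1 / q - D.κ * (1 / (q : ℝ) ^ 2) := by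
      field_simp
    rw [h4] at h3
    linarith
  · rw [mean_eq1 D g hq hb, if_neg hb]
    linarith

open scoped Classical in
theorem mean_up (mn : S_MN) {D : Dat} (h : Ax D) (g : ℕ) {q : ℕ} (hq : q.Prime) :
    mean D g q ≤ (2 * D.κ + 1) / q := by
  have hq0 : (0 : ℝ) < q := by exact_mod_cast hq.pos
  have hq1 : (1 : ℝ) ≤ q := by exact_mod_cast hq.one_lt.le
  have hκ : 0 ≤ D.κ := by linarith [h.κ1]
  have hk1 : 0 ≤ D.κ / (q : ℝ) := by positivity
  have e : (2 * D.κ + 1) / (q : ℝ) = 1 / q + D.κ / q + D.κ / q := by ring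
  have hk2 : D.κ / (q : ℝ) ^ 2 ≤ D.κ / q := by
    apply div_le_div_of_nonneg_left hκ hq0
    nlinarith
  rw [e]
  by_cases hb : BQ D g q
  · rw [mean_eq2 h g hq hb]
    have hcop : Nat.Coprime g q := ((Nat.Prime.coprime_iff_not_dvd hq).2 hb.2.2).symm
    have h1 := (abs_le.1 ((mn D h q g hq hb.2.1).2 hcop)).2
    have hr1 : D.ρ q / q ≤ D.κ / (q : ℝ) :=
      div_le_div_of_nonneg_right (h.rho_up q).2 hq0.le
    have h2 : (((range (q ^ 2)).filter (fun n => SA D g q n)).card : ℝ) / (q : ℝ) ^ 2 ≤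
        (∑ n ∈ range (q ^ 2), (if D.T q (g * n) then (1 : ℝ) else 0)) / (q : ℝ) ^ 2 := by
      apply div_le_div_of_nonneg_right _ (by positivity)
      rw [Finset.sum_boole]
      have : ((range (q ^ 2)).filter (fun n => SA D g q n)).card ≤
          ((range (q ^ 2)).filter (fun n => D.T q (g * n))).card :=
        Finset.card_le_card (Finset.monotone_filter_right _ fun n _ hn => hn.1)
      exact_mod_cast this
    linarith
  · rw [mean_eq1 D g hq hb]
    linarith

open scoped Classical in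
/-- the elements of the set are sifted -/
theorem sift {D : Dat} (X g z : ℕ) :
    ({p : ℕ | p.Prime ∧ z < p ∧ p ≤ X / g ∧ Ex D.c0 (g * p) p ∧ Pass D (g * p)}.ncard : ℝ) ≤
      ∑ n ∈ Icc 1 (X / g), ∏ q ∈ PI 0 z, (1 - hh D g q n) := by
  set A : Set ℕ := {p : ℕ | p.Prime ∧ z < p ∧ p ≤ X / g ∧ Ex D.c0 (g * p) p ∧
    Pass D (g * p)} with hA
  set F : Finset ℕ := (Icc 1 (X / g)).filter (fun p => p ∈ A) with hF
  have hsub : A ⊆ (F : Set ℕ) := by
    intro p hp
    rw [mem_coe, hF, mem_filter, mem_Icc]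
    exact ⟨⟨hp.1.one_lt.le, hp.2.2.1⟩, hp⟩
  have hcard : (A.ncard : ℝ) ≤ F.card := by
    have h1 := Set.ncard_le_ncard hsub (Finset.finite_toSet _)
    rw [Set.ncard_coe_finset] at h1
    exact_mod_cast h1
  refine hcard.trans ?_
  rw [hF, Finset.card_filter]
  push_cast
  refine Finset.sum_le_sum fun p _ => ?_
  by_cases hm : p ∈ A
  · rw [if_pos hm]
    apply le_of_eq
    symm
    apply Finset.prod_eq_one
    intro q hq
    obtain ⟨hp, hzp, -, hex, hpass⟩ := hm
    obtain ⟨⟨-, hqz⟩, hqp⟩ := mem_PI.1 hq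
    have hz : hh D g q p = 0 := by
      unfold hh
      rw [if_neg]
      rintro (h1 | ⟨⟨-, h1, -⟩, h2, j, h3⟩)
      · have := (Nat.prime_dvd_prime_iff_eq hqp hp).1 h1
        omega
      · exact hpass.1 p q j hex hqp h1 h2 h3
    rw [hz, sub_zero]
  · rw [if_neg hm]
    apply Finset.prod_nonneg
    intro q _
    rcases hh01 D g q p with h1 | h1 <;> rw [h1] <;> norm_num

open scoped Classical in
/-- the sum of the means -/
theorem sum_low {D : Dat} (h : Ax D) : ∃ C0 : ℝ, 0 ≤ C0 ∧ ∀ g z : ℕ, 3 ≤ z → 1 ≤ g →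
    9 / 8 * Real.log (Real.log z) - Real.log (1 + g.primeFactors.card) - C0 ≤
      ∑ q ∈ PI 0 z, mean D g q := by
  obtain ⟨C1, hC1, hm⟩ := mert_le
  obtain ⟨C2, hC2, hs⟩ := sum_sq_inv
  obtain ⟨C3, hq3⟩ := h.mertQ
  have hκ : 0 ≤ D.κ := by linarith [h.κ1]
  refine ⟨C1 + D.κ * C2 + |C3| + D.c0.primeFactors.card, by positivity, fun g z hz hg => ?_⟩
  have h1 := Finset.sum_le_sum (fun q (hq : q ∈ PI 0 z) => mean_low h g (mem_PI.1 hq).2)
  refine le_trans ?_ h1
  rw [Finset.sum_sub_distrib, Finset.sum_add_distrib, ← Finset.sum_filter, ← Finset.mul_sum]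
  have h2 := (abs_le.1 (hm z hz)).1
  have h3 := mul_le_mul_of_nonneg_left (hs (PI 0 z)) hκ
  -- the primes of `Q`
  have h4 := hq3 2 z le_rfl (by omega)
  have hz3 : (3 : ℝ) ≤ z := by exact_mod_cast hz
  have hlz : 1 ≤ Real.log z := by
    rw [Real.le_log_iff_exp_le (by linarith)]
    have := Real.exp_one_lt_d9
    linarith
  have hlog2 : 0 < Real.log 2 := Real.log_pos (by norm_num)
  have hlog2' : Real.log 2 ≤ 1 := by
    have := Real.log_two_lt_d9
    linarith
  have h5 : Real.log (Real.log z) ≤ Real.log (Real.log z / Real.log ((2 : ℕ) : ℝ)) := by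
    push_cast
    apply Real.log_le_log (by linarith)
    rw [le_div_iff₀ hlog2]
    nlinarith
  have h6 : ∑ q ∈ (PI 2 z).filter (fun q => D.Q q), 1 / (q : ℝ) ≤
      ∑ q ∈ (PI 0 z).filter (fun q => BQ D g q), 1 / (q : ℝ) +
        ∑ q ∈ D.c0.primeFactors, 1 / (q : ℝ) + ∑ q ∈ g.primeFactors, 1 / (q : ℝ) := by
    have hsub : (PI 2 z).filter (fun q => D.Q q) ⊆
        ((PI 0 z).filter (fun q => BQ D g q) ∪ D.c0.primeFactors) ∪ g.primeFactors := by
      intro q hq
      rw [mem_filter, mem_PI] at hq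
      obtain ⟨⟨⟨hq1, hq2⟩, hqp⟩, hqQ⟩ := hq
      by_cases hc : q ∣ D.c0
      · exact mem_union_left _ (mem_union_right _
          (Nat.mem_primeFactors.2 ⟨hqp, hc, h.c0_pos.ne'⟩))
      · by_cases hgd : q ∣ g
        · exact mem_union_right _ (Nat.mem_primeFactors.2 ⟨hqp, hgd, by omega⟩)
        · refine mem_union_left _ (mem_union_left _ ?_)
          rw [mem_filter, mem_PI]
          exact ⟨⟨⟨by omega, hq2⟩, hqp⟩, hqQ, hc, hgd⟩
    have hnn : ∀ q : ℕ, 0 ≤ 1 / (q : ℝ) := fun q => by positivity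
    refine (Finset.sum_le_sum_of_subset_of_nonneg hsub fun q _ _ => hnn q).trans ?_
    have u1 : ∀ s t : Finset ℕ, ∑ q ∈ s ∪ t, 1 / (q : ℝ) ≤ ∑ q ∈ s, 1 / (q : ℝ) +
        ∑ q ∈ t, 1 / (q : ℝ) := by
      intro s t
      rw [← sum_union_inter]
      exact le_add_of_nonneg_right (sum_nonneg fun q _ => hnn q)
    exact (u1 _ _).trans (add_le_add (u1 _ _) le_rfl)
  have h7 : ∑ q ∈ g.primeFactors, 1 / (q : ℝ) ≤ Real.log (1 + g.primeFactors.card) :=
    sum_inv_le g.primeFactors fun q hq => (Nat.prime_of_mem_primeFactors hq).two_le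
  have h8 : ∑ q ∈ D.c0.primeFactors, 1 / (q : ℝ) ≤ D.c0.primeFactors.card := by
    calc ∑ q ∈ D.c0.primeFactors, 1 / (q : ℝ) ≤ ∑ q ∈ D.c0.primeFactors, (1 : ℝ) := by
          refine Finset.sum_le_sum fun q hq => ?_
          have h9 : (1 : ℝ) ≤ q := by
            exact_mod_cast (Nat.prime_of_mem_primeFactors hq).one_lt.le
          rw [div_le_one (by linarith)]
          exact h9
      _ = D.c0.primeFactors.card := by simp
  have h10 := le_abs_self C3
  linarith

open scoped Classical in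
/-- Task CP of project HL. -/
theorem cp (sv : Pool.Agent.W114.PQ.S_SV) (mn : S_MN) : S_CP := by
  intro D h
  obtain ⟨C0, hC0, hlow⟩ := sum_low h
  have hκ1 := h.κ1
  obtain ⟨Cs, hCs, hsv⟩ := sv (2 * D.κ + 1) (by linarith)
  have hexp0 : 0 < Cs * Real.exp C0 := by positivity
  refine ⟨Cs * Real.exp C0 + 2 * Cs + 8, by linarith, ?_⟩
  intro z X g hz hX hg hgX
  have hz3 : (3 : ℝ) ≤ z := by exact_mod_cast hz
  have hexp := Real.exp_one_lt_d9
  have hlz : 1 ≤ Real.log z := by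
    rw [Real.le_log_iff_exp_le (by linarith)]; linarith
  have hllz : 0 ≤ Real.log (Real.log z) := Real.log_nonneg hlz
  have hL1 : Real.log z ≤ Real.log z * (1 + Real.log (Real.log z)) := by nlinarith
  have hX2 : (2 * Cs + 8) * (Real.log z * (1 + Real.log (Real.log z))) ≤ Real.log X := by
    refine le_trans ?_ hX
    rw [mul_assoc]
    apply mul_le_mul_of_nonneg_right _ (by positivity)
    linarith
  set LL : ℝ := Real.log z * (1 + Real.log (Real.log z)) with hLL
  have hLL1 : 1 ≤ LL := hlz.trans hL1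
  have hX8 : 8 * LL ≤ Real.log X :=
    (mul_le_mul_of_nonneg_right (by linarith) (by linarith)).trans hX2
  have hXpos : (1 : ℝ) < X := by
    by_contra hcon
    push Not at hcon
    have := Real.log_nonpos (Nat.cast_nonneg X) hcon
    linarith
  have hgR : (1 : ℝ) ≤ g := by exact_mod_cast hg
  have hlogg : 4 * Real.log g ≤ Real.log X := by
    have h1 : ((g : ℝ)) ^ 4 ≤ X := by exact_mod_cast hgX
    have h2 := Real.log_le_log (by positivity) h1
    rw [Real.log_pow] at h2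
    exact_mod_cast h2
  have hXg0 : (0 : ℝ) < X / g := by positivity
  have hlogXg : 3 / 4 * Real.log X ≤ Real.log ((X : ℝ) / g) := by
    rw [Real.log_div (by linarith) (by linarith)]
    linarith
  have hz3X : (z : ℝ) ^ 3 ≤ X / g := by
    rw [← Real.log_le_log_iff (by positivity) hXg0, Real.log_pow]
    push_cast
    linarith
  have hXg2 : (2 : ℝ) ≤ X / g := by
    have h01 := pow_le_pow_left₀ (by norm_num) hz3 3
    norm_num at h01
    linarith
  have hN2 : (X : ℝ) / g / 2 ≤ ((X / g : ℕ) : ℝ) := by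
    have h1 : (X : ℝ) / g < ((X / g : ℕ) : ℝ) + 1 := by
      rw [div_lt_iff₀ (by linarith)]
      have := Nat.lt_mul_div_succ X hg
      rw [mul_comm]
      exact_mod_cast this
    linarith
  have hNle : ((X / g : ℕ) : ℝ) ≤ X / g := Nat.cast_div_le
  have hlog2 : Real.log 2 ≤ 1 := by
    have := Real.log_two_lt_d9
    linarith
  have hlogN : Cs * Real.log z * (1 + Real.log (Real.log z)) ≤ Real.log ((X / g : ℕ) : ℝ) := by
    have h1 : Real.log ((X : ℝ) / g / 2) ≤ Real.log ((X / g : ℕ) : ℝ) :=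
      Real.log_le_log (by positivity) hN2
    rw [Real.log_div hXg0.ne' (by norm_num)] at h1
    rw [mul_assoc, ← hLL]
    nlinarith
  -- the sum of the means
  set om : ℝ := (g.primeFactors.card : ℝ) with hom
  have hom0 : 0 ≤ om := Nat.cast_nonneg _
  have hsum := hlow g z hz hg
  rw [← hom] at hsum
  have hexpo : Real.exp (-∑ q ∈ PI 0 z, mean D g q) ≤ Real.exp C0 *
      ((1 + om) * (Real.log z) ^ (-(9 / 8) : ℝ)) := by
    have e1 : (1 + om) = Real.exp (Real.log (1 + om)) := (Real.exp_log (by linarith)).symm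
    rw [e1, Real.rpow_def_of_pos (by linarith), ← Real.exp_add, ← Real.exp_add]
    apply Real.exp_le_exp.2
    linarith
  have hpw : (1 + om) ≤ (1 + om) ^ (D.κ + 1 : ℝ) := by
    conv_lhs => rw [← Real.rpow_one (1 + om)]
    exact Real.rpow_le_rpow_of_exponent_le (by linarith) (by linarith)
  have hs : ∑ n ∈ Icc 1 (X / g), ∏ q ∈ PI 0 z, (1 - hh D g q n) ≤
      Cs * ((X / g : ℕ) : ℝ) * Real.exp (-∑ q ∈ PI 0 z, mean D g q) :=
    hsv z (X / g) hz hlogN (PI 0 z) (hh D g) (fun q hq => ⟨(mem_PI.1 hq).2, (mem_PI.1 hq).1.2⟩)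
      (fun q _ n => hh01 D g q n) (fun q hq n => hh_per h g n (mem_PI.1 hq).2)
      (fun q hq => mean_up mn h g (mem_PI.1 hq).2)
  refine (sift X g z).trans (hs.trans ?_)
  have hA3 : (0 : ℝ) < (Real.log z) ^ (-(9 / 8) : ℝ) := Real.rpow_pos_of_pos (by linarith) _
  have hA1 : 0 < (1 + om) ^ (D.κ + 1 : ℝ) := Real.rpow_pos_of_pos (by linarith) _
  calc Cs * ((X / g : ℕ) : ℝ) * Real.exp (-∑ q ∈ PI 0 z, mean D g q)
      ≤ Cs * (X / g) * (Real.exp C0 * ((1 + om) ^ (D.κ + 1 : ℝ) *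
        (Real.log z) ^ (-(9 / 8) : ℝ))) := by
        apply mul_le_mul
        · exact mul_le_mul_of_nonneg_left hNle (by linarith)
        · refine hexpo.trans ?_
          apply mul_le_mul_of_nonneg_left _ (Real.exp_pos _).le
          exact mul_le_mul_of_nonneg_right hpw hA3.le
        · exact (Real.exp_pos _).le
        · positivity
    _ = (Cs * Real.exp C0) * ((1 + om) ^ (D.κ + 1 : ℝ) * (X / g) *
        (Real.log z) ^ (-(9 / 8) : ℝ)) := by ring
    _ ≤ (Cs * Real.exp C0 + 2 * Cs + 8) * ((1 + om) ^ (D.κ + 1 : ℝ) * (X / g) *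
        (Real.log z) ^ (-(9 / 8) : ℝ)) := by
        apply mul_le_mul_of_nonneg_right _ (by positivity)
        linarith
    _ = _ := by ring

end Pool.Agent.W554.HL
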