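import Pool.Agent.W257.HL.Stm
import Pool.Agent.W349.HZ.LAT

/-!
# RED: reduction of the quartic
-/

set_option autoImplicit false

namespace Pool.Agent.W554.HL

open Pool.Agent.W257.HL

theorem mon (a b c d P Q R S : ℝ) (ha : |a| ≤ P) (hb : |b| ≤ Q) (hc : |c| ≤ R) (hd : |d| ≤ S) :
    |a * b * c * d| ≤ P * Q * R * S := by
  have hP := (abs_nonneg a).trans ha
  have hQ := (abs_nonneg b).trans hb
  have hR := (abs_nonneg c).trans hc
  rw [abs_mul, abs_mul, abs_mul]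
  gcongr

theorem tri4 (c1 c2 c3 c4 m1 m2 m3 m4 M : ℝ) (h1 : |m1| ≤ M) (h2 : |m2| ≤ M) (h3 : |m3| ≤ M)
    (h4 : |m4| ≤ M) :
    |c1 * m1 + c2 * m2 + c3 * m3 + c4 * m4| ≤ (|c1| + |c2| + |c3| + |c4|) * M := by
  have e1 : |c1 * m1| ≤ |c1| * M := by rw [abs_mul]; gcongr
  have e2 : |c2 * m2| ≤ |c2| * M := by rw [abs_mul]; gcongr
  have e3 : |c3 * m3| ≤ |c3| * M := by rw [abs_mul]; gcongr
  have e4 : |c4 * m4| ≤ |c4| * M := by rw [abs_mul]; gcongr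
  have t1 := abs_add_le (c1 * m1 + c2 * m2 + c3 * m3) (c4 * m4)
  have t2 := abs_add_le (c1 * m1 + c2 * m2) (c3 * m3)
  have t3 := abs_add_le (c1 * m1) (c2 * m2)
  nlinarith

theorem tri6 (c1 c2 c3 c4 c5 c6 m1 m2 m3 m4 m5 m6 M : ℝ) (h1 : |m1| ≤ M) (h2 : |m2| ≤ M)
    (h3 : |m3| ≤ M) (h4 : |m4| ≤ M) (h5 : |m5| ≤ M) (h6 : |m6| ≤ M) :
    |c1 * m1 + c2 * m2 + c3 * m3 + c4 * m4 + c5 * m5 + c6 * m6| ≤
      (|c1| + |c2| + |c3| + |c4| + |c5| + |c6|) * M := by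
  have e5 : |c5 * m5| ≤ |c5| * M := by rw [abs_mul]; gcongr
  have e6 : |c6 * m6| ≤ |c6| * M := by rw [abs_mul]; gcongr
  have t0 := tri4 c1 c2 c3 c4 m1 m2 m3 m4 M h1 h2 h3 h4
  have t1 := abs_add_le (c1 * m1 + c2 * m2 + c3 * m3 + c4 * m4 + c5 * m5) (c6 * m6)
  have t2 := abs_add_le (c1 * m1 + c2 * m2 + c3 * m3 + c4 * m4) (c5 * m5)
  nlinarith

section real

variable (ε E1 E2 H s r s' r' p q : ℝ)

/-- the value -/
def ph : ℝ := ε * (s * s * s * s) + 4 * (s * s * s * r) + E1 * (s * r * r * r) + E2 * (r * r * r * r)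

/-- the coefficient of `X ^ 3 Y` -/
def ph3 : ℝ := (4 * ε) * (s * s * s * s') + 12 * (s * s * s' * r) + 4 * (s * s * s * r') +
  E1 * (s' * r * r * r) + (3 * E1) * (s * r * r * r') + (4 * E2) * (r * r * r * r')

/-- the coefficient of `X ^ 2 Y ^ 2` -/
def ph2 : ℝ := (6 * ε) * (s * s * s' * s') + 12 * (s * s' * s' * r) + 12 * (s * s * s' * r') +
  (3 * E1) * (s' * r * r * r') + (3 * E1) * (s * r * r' * r') + (6 * E2) * (r * r * r' * r')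

theorem ph_le (hε : |ε| ≤ 1) (hE1 : |E1| ≤ 16 * H) (hE2 : |E2| ≤ 16 * H) (hH : 1 ≤ H)
    (hs : |s| ≤ p) (hr : |r| ≤ p) : |ph ε E1 E2 s r| ≤ 37 * H * (p * p * p * p) := by
  have hp : 0 ≤ p := (abs_nonneg s).trans hs
  have h := tri4 ε 4 E1 E2 _ _ _ _ _ (mon s s s s p p p p hs hs hs hs)
    (mon s s s r p p p p hs hs hs hr) (mon s r r r p p p p hs hr hr hr)
    (mon r r r r p p p p hr hr hr hr)
  refine h.trans (mul_le_mul_of_nonneg_right ?_ (by positivity))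
  have : |(4 : ℝ)| = 4 := by norm_num
  rw [this]
  linarith

theorem ph3_le (hε : |ε| ≤ 1) (hE1 : |E1| ≤ 16 * H) (hE2 : |E2| ≤ 16 * H) (hH : 1 ≤ H)
    (hs : |s| ≤ p) (hr : |r| ≤ p) (hs' : |s'| ≤ q) (hr' : |r'| ≤ q) :
    |ph3 ε E1 E2 s r s' r'| ≤ 148 * H * (p * p * p * q) := by
  have hp : 0 ≤ p := (abs_nonneg s).trans hs
  have hq : 0 ≤ q := (abs_nonneg s').trans hs'
  have m2 : |s * s * s' * r| ≤ p * p * p * q := by
    have := mon s s s' r p p q p hs hs hs' hr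
    nlinarith
  have m4 : |s' * r * r * r| ≤ p * p * p * q := by
    have := mon s' r r r q p p p hs' hr hr hr
    nlinarith
  have h := tri6 (4 * ε) 12 4 E1 (3 * E1) (4 * E2) _ _ _ _ _ _ _
    (mon s s s s' p p p q hs hs hs hs') m2
    (mon s s s r' p p p q hs hs hs hr') m4
    (mon s r r r' p p p q hs hr hr hr') (mon r r r r' p p p q hr hr hr hr')
  refine h.trans (mul_le_mul_of_nonneg_right ?_ (by positivity))
  have e1 : |(4 : ℝ)| = 4 := by norm_num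
  have e2 : |(12 : ℝ)| = 12 := by norm_num
  have e3 : |(3 : ℝ)| = 3 := by norm_num
  rw [abs_mul, abs_mul, abs_mul, e1, e2, e3]
  linarith

theorem ph2_le (hε : |ε| ≤ 1) (hE1 : |E1| ≤ 16 * H) (hE2 : |E2| ≤ 16 * H) (hH : 1 ≤ H)
    (hs : |s| ≤ p) (hr : |r| ≤ p) (hs' : |s'| ≤ q) (hr' : |r'| ≤ q) :
    |ph2 ε E1 E2 s r s' r'| ≤ 222 * H * (p * p * q * q) := by
  have hp : 0 ≤ p := (abs_nonneg s).trans hs
  have hq : 0 ≤ q := (abs_nonneg s').trans hs'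
  have m2 : |s * s' * s' * r| ≤ p * p * q * q := by
    have := mon s s' s' r p q q p hs hs' hs' hr
    nlinarith
  have m4 : |s' * r * r * r'| ≤ p * p * q * q := by
    have := mon s' r r r' q p p q hs' hr hr hr'
    nlinarith
  have h := tri6 (6 * ε) 12 12 (3 * E1) (3 * E1) (6 * E2) _ _ _ _ _ _ _
    (mon s s s' s' p p q q hs hs hs' hs') m2
    (mon s s s' r' p p q q hs hs hs' hr') m4
    (mon s r r' r' p p q q hs hr hr' hr') (mon r r r' r' p p q q hr hr hr' hr')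
  refine h.trans (mul_le_mul_of_nonneg_right ?_ (by positivity))
  have e1 : |(6 : ℝ)| = 6 := by norm_num
  have e2 : |(12 : ℝ)| = 12 := by norm_num
  have e3 : |(3 : ℝ)| = 3 := by norm_num
  rw [abs_mul, abs_mul, abs_mul, e1, e2, e3]
  linarith

end real

theorem nat_of_real (n : ℤ) (m : ℕ) (h : |(n : ℝ)| ≤ m) : n.natAbs ≤ m := by
  have h1 : |n| ≤ (m : ℤ) := by exact_mod_cast h
  rw [Int.abs_eq_natAbs] at h1
  exact_mod_cast h1

set_option maxHeartbeats 4000000 in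
theorem t_RED : S_RED := by
  refine ⟨150000, ?_⟩
  intro A B x y H hH hH1 hE hy hx hg
  have hHR : (1 : ℝ) ≤ H := by exact_mod_cast hH1
  have hxR : (H : ℝ) ≤ x := by exact_mod_cast hx
  have hx1 : (1 : ℝ) ≤ x := hHR.trans hxR
  have hyR : (0 : ℝ) ≤ y := by exact_mod_cast hy
  have hA : |(A : ℝ)| ≤ H := by
    have : |A| ≤ (H : ℤ) := by
      rw [Int.abs_eq_natAbs, hH]
      exact_mod_cast le_max_left _ _
    exact_mod_cast this
  have hB : |(B : ℝ)| ≤ H := by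
    have : |B| ≤ (H : ℤ) := by
      rw [Int.abs_eq_natAbs, hH]
      exact_mod_cast le_max_right _ _
    exact_mod_cast this
  have hER : (y : ℝ) ^ 2 = (x : ℝ) ^ 3 + A * x + B := by exact_mod_cast hE
  obtain ⟨V, hV⟩ : ∃ V, V = Real.sqrt (Real.sqrt (x : ℝ)) := ⟨_, rfl⟩
  have hV2 : V ^ 2 = Real.sqrt (x : ℝ) := by rw [hV, Real.sq_sqrt (Real.sqrt_nonneg _)]
  have hV4 : V ^ 4 = x := by
    have : V ^ 4 = (V ^ 2) ^ 2 := by ring
    rw [this, hV2, Real.sq_sqrt (by linarith)]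
  have hV1 : 1 ≤ V := by
    rw [hV]
    exact Real.one_le_sqrt.2 (Real.one_le_sqrt.2 hx1)
  have hV0 : 0 < V := by linarith
  obtain ⟨u₁, v₁, u₂, v₂, j, hdet, hv1, -, -, h1, h2⟩ := Pool.Agent.W349.HZ.LAT.t (V ^ 2) V hV1
  obtain ⟨T, hT⟩ : ∃ T : ℝ, T = 2 ^ j / 2 := ⟨_, rfl⟩
  rw [← hT] at h1 h2
  have hT1 : 1 / 2 ≤ T := by
    rw [hT]
    have : (1 : ℝ) ≤ 2 ^ j := one_le_pow₀ (by norm_num)
    linarith
  have hT0 : 0 < T := by linarith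
  obtain ⟨s1, hs1⟩ : ∃ s1, s1 = ((u₁ : ℝ) - V ^ 2 * v₁) * V := ⟨_, rfl⟩
  obtain ⟨s2, hs2⟩ : ∃ s2, s2 = ((u₂ : ℝ) - V ^ 2 * v₂) * V := ⟨_, rfl⟩
  obtain ⟨r1, hr1⟩ : ∃ r1, r1 = (v₁ : ℝ) / V := ⟨_, rfl⟩
  obtain ⟨r2, hr2⟩ : ∃ r2, r2 = (v₂ : ℝ) / V := ⟨_, rfl⟩
  rw [← hs1, ← hr1] at h1
  rw [← hs2, ← hr2] at h2
  -- sizes of the scaled vectors
  obtain ⟨p, hp⟩ : ∃ p, p = 1 / T := ⟨_, rfl⟩
  have hpT : p * T = 1 := by rw [hp]; field_simp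
  have hp0 : 0 < p := by rw [hp]; positivity
  have hp2 : p ≤ 2 := by
    rw [hp, div_le_iff₀ hT0]
    linarith
  have bs1 : |s1| ≤ p := by
    have h3 : (s1 * T) ^ 2 ≤ 1 := by nlinarith [sq_nonneg (r1 * T)]
    have h4 : |s1 * T| ≤ 1 := by
      rw [← abs_one, ← sq_le_sq, one_pow]
      exact h3
    rw [abs_mul, abs_of_pos hT0] at h4
    rw [hp, le_div_iff₀ hT0]
    exact h4
  have br1 : |r1| ≤ p := by
    have h3 : (r1 * T) ^ 2 ≤ 1 := by nlinarith [sq_nonneg (s1 * T)]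
    have h4 : |r1 * T| ≤ 1 := by
      rw [← abs_one, ← sq_le_sq, one_pow]
      exact h3
    rw [abs_mul, abs_of_pos hT0] at h4
    rw [hp, le_div_iff₀ hT0]
    exact h4
  have bs2 : |s2| ≤ 3 * T := by
    apply abs_le_of_sq_le_sq _ (by positivity)
    nlinarith [sq_nonneg r2, sq_nonneg T]
  have br2 : |r2| ≤ 3 * T := by
    apply abs_le_of_sq_le_sq _ (by positivity)
    nlinarith [sq_nonneg s2, sq_nonneg T]
  -- the form
  obtain ⟨η, hη⟩ : ∃ η, η = (y : ℝ) - V ^ 6 := ⟨_, rfl⟩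
  have hyη : (y : ℝ) = V ^ 6 + η := by rw [hη]; ring
  have hD0 : 0 < (y : ℝ) + V ^ 6 := by positivity
  have hDV : V ^ 6 ≤ (y : ℝ) + V ^ 6 := by linarith
  have hηD : η * ((y : ℝ) + V ^ 6) = A * V ^ 4 + B := by
    have : η * ((y : ℝ) + V ^ 6) = (y : ℝ) ^ 2 - (V ^ 4) ^ 3 := by rw [hη]; ring
    rw [this, hER, hV4]
    ring
  have hV41 : 1 ≤ V ^ 4 := by rw [hV4]; exact hx1
  have hV4H : (H : ℝ) ≤ V ^ 4 := by rw [hV4]; exact hxR
  have hAVB : |(A : ℝ) * V ^ 4 + B| ≤ 2 * H * V ^ 4 := by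
    have t1 := abs_add_le ((A : ℝ) * V ^ 4) B
    rw [abs_mul, abs_of_pos (by positivity : (0 : ℝ) < V ^ 4)] at t1
    have t2 : |(A : ℝ)| * V ^ 4 ≤ H * V ^ 4 := by gcongr
    have t3 : (H : ℝ) * 1 ≤ H * V ^ 4 := by gcongr
    linarith
  have hη2 : |η| * V ^ 2 ≤ 2 * H := by
    have t1 : (|η| * V ^ 2) * V ^ 4 ≤ (2 * H) * V ^ 4 := by
      calc (|η| * V ^ 2) * V ^ 4 = |η| * V ^ 6 := by ring
        _ ≤ |η| * ((y : ℝ) + V ^ 6) := by gcongr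
        _ = |η * ((y : ℝ) + V ^ 6)| := by rw [abs_mul, abs_of_pos hD0]
        _ ≤ _ := by rw [hηD]; exact hAVB
    exact le_of_mul_le_mul_right t1 (by positivity)
  obtain ⟨E1, hE1⟩ : ∃ E1, E1 = 8 * η * V ^ 2 := ⟨_, rfl⟩
  obtain ⟨E2, hE2⟩ : ∃ E2, E2 = (8 * η * V ^ 2 - 4 * A) * V ^ 4 := ⟨_, rfl⟩
  obtain ⟨ε, hε⟩ : ∃ ε, ε = 1 / V ^ 4 := ⟨_, rfl⟩
  have bE1 : |E1| ≤ 16 * H := by
    rw [hE1, abs_mul, abs_mul, abs_of_pos (by positivity : (0 : ℝ) < V ^ 2),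
      abs_of_pos (by norm_num : (0 : ℝ) < 8)]
    linarith
  have bE2 : |E2| ≤ 16 * H := by
    have t0 : E2 * ((y : ℝ) + V ^ 6) = (-4 * A * η) * V ^ 4 + 8 * B * V ^ 6 := by
      have : E2 * ((y : ℝ) + V ^ 6) =
          8 * V ^ 6 * (η * ((y : ℝ) + V ^ 6)) - 4 * A * V ^ 4 * ((y : ℝ) + V ^ 6) := by
        rw [hE2]; ring
      rw [this, hηD, hη]
      ring
    have t1 : |E2| * ((y : ℝ) + V ^ 6) ≤ (16 * H) * ((y : ℝ) + V ^ 6) := by
      calc |E2| * ((y : ℝ) + V ^ 6) = |E2 * ((y : ℝ) + V ^ 6)| := by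
            rw [abs_mul, abs_of_pos hD0]
        _ = |(-4 * A * η) * V ^ 4 + 8 * B * V ^ 6| := by rw [t0]
        _ ≤ |(-4 * A * η) * V ^ 4| + |8 * B * V ^ 6| := abs_add_le _ _
        _ = (4 * |(A : ℝ)| * |η|) * V ^ 4 + 8 * |(B : ℝ)| * V ^ 6 := by
            rw [abs_mul, abs_mul, abs_mul, abs_mul, abs_mul,
              abs_of_pos (by positivity : (0 : ℝ) < V ^ 4),
              abs_of_pos (by positivity : (0 : ℝ) < V ^ 6),
              abs_of_pos (by norm_num : (0 : ℝ) < 8), abs_neg,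
              abs_of_pos (by norm_num : (0 : ℝ) < 4)]
        _ = 4 * |(A : ℝ)| * (|η| * V ^ 2) * V ^ 2 + 8 * |(B : ℝ)| * V ^ 6 := by ring
        _ ≤ 4 * H * (2 * H) * V ^ 2 + 8 * H * V ^ 6 := by gcongr
        _ = 8 * H * H * V ^ 2 + 8 * H * V ^ 6 := by ring
        _ ≤ 8 * H * V ^ 4 * V ^ 2 + 8 * H * V ^ 6 := by gcongr
        _ = 16 * H * V ^ 6 := by ring
        _ ≤ _ := by gcongr
    exact le_of_mul_le_mul_right t1 hD0
  have bε : |ε| ≤ 1 := by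
    rw [hε, abs_of_pos (by positivity), div_le_one (by positivity)]
    exact hV41
  have hVne : V ≠ 0 := hV0.ne'
  have gen : ∀ (u v : ℤ) (s r : ℝ), s = ((u : ℝ) - V ^ 2 * v) * V → r = (v : ℝ) / V →
      ((gq A x y u v : ℤ) : ℝ) = ph ε E1 E2 s r := by
    intro u v s r hs hr
    unfold gq ph
    push_cast
    rw [hyη, ← hV4, hε, hE1, hE2, hs, hr]
    field_simp
    ring
  have gen3 : ∀ (u v : ℤ) (s r : ℝ) (u' v' : ℤ) (s' r' : ℝ), s = ((u : ℝ) - V ^ 2 * v) * V →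
      r = (v : ℝ) / V → s' = ((u' : ℝ) - V ^ 2 * v') * V → r' = (v' : ℝ) / V →
      ((cb A x y u v u' v' : ℤ) : ℝ) = ph3 ε E1 E2 s r s' r' := by
    intro u v s r u' v' s' r' hs hr hs' hr'
    unfold cb ph3
    push_cast
    rw [hyη, ← hV4, hε, hE1, hE2, hs, hr, hs', hr']
    field_simp
    ring
  have gen2 : ((cc A x y u₁ v₁ u₂ v₂ : ℤ) : ℝ) = ph2 ε E1 E2 s1 r1 s2 r2 := by
    unfold cc ph2
    push_cast
    rw [hyη, ← hV4, hε, hE1, hE2, hs1, hr1, hs2, hr2]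
    field_simp
    ring
  have b1 := ph_le ε E1 E2 H s1 r1 p bε bE1 bE2 hHR bs1 br1
  have b2 := ph3_le ε E1 E2 H s1 r1 s2 r2 p (3 * T) bε bE1 bE2 hHR bs1 br1 bs2 br2
  have b3 := ph2_le ε E1 E2 H s1 r1 s2 r2 p (3 * T) bε bE1 bE2 hHR bs1 br1 bs2 br2
  have b4 := ph3_le ε E1 E2 H s2 r2 s1 r1 (3 * T) p bε bE1 bE2 hHR bs2 br2 bs1 br1
  have b5 := ph_le ε E1 E2 H s2 r2 (3 * T) bε bE1 bE2 hHR bs2 br2
  rw [← gen u₁ v₁ s1 r1 hs1 hr1] at b1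
  rw [← gen3 u₁ v₁ s1 r1 u₂ v₂ s2 r2 hs1 hr1 hs2 hr2] at b2
  rw [← gen2] at b3
  rw [← gen3 u₂ v₂ s2 r2 u₁ v₁ s1 r1 hs2 hr2 hs1 hr1] at b4
  rw [← gen u₂ v₂ s2 r2 hs2 hr2] at b5
  -- the size of T
  have hT4 : T ^ 4 ≤ 37 * H := by
    have h3 : gq A x y u₁ v₁ ≠ 0 := hg u₁ v₁ (by omega)
    have h4 : (1 : ℝ) ≤ |((gq A x y u₁ v₁ : ℤ) : ℝ)| := by
      have : 1 ≤ |gq A x y u₁ v₁| := Int.one_le_abs h3
      exact_mod_cast this
    have h5 : 1 ≤ 37 * (H : ℝ) * (p * p * p * p) := h4.trans b1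
    calc T ^ 4 = 1 * T ^ 4 := by ring
      _ ≤ (37 * (H : ℝ) * (p * p * p * p)) * T ^ 4 := by gcongr
      _ = 37 * H * (p * T) ^ 4 := by ring
      _ = 37 * H := by rw [hpT]; ring
  have hT2 : T ^ 2 ≤ 37 * H := by
    rcases le_total (T ^ 2) 1 with h | h
    · linarith
    · have h6 : T ^ 2 * 1 ≤ T ^ 2 * T ^ 2 := mul_le_mul_of_nonneg_left h (sq_nonneg T)
      have h7 : T ^ 2 * T ^ 2 = T ^ 4 := by ring
      linarith
  have hHH : (H : ℝ) ≤ (H : ℝ) ^ 2 := by nlinarith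
  refine ⟨u₁, v₁, u₂, v₂, hdet, ?_, ?_, ?_, ?_, ?_, ?_⟩
  · apply nat_of_real
    refine b1.trans ?_
    push_cast
    have : p * p * p * p ≤ 2 * 2 * 2 * 2 := by gcongr
    have h3 : 37 * (H : ℝ) * (p * p * p * p) ≤ 37 * H * (2 * 2 * 2 * 2) := by gcongr
    linarith
  · apply nat_of_real
    refine b2.trans ?_
    push_cast
    have e : p * p * p * (3 * T) = 3 * (p * p) * (p * T) := by ring
    rw [e, hpT]
    have : p * p ≤ 2 * 2 := by gcongr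
    have h3 : 148 * (H : ℝ) * (3 * (p * p) * 1) ≤ 148 * H * (3 * (2 * 2) * 1) := by gcongr
    linarith
  · apply nat_of_real
    refine b3.trans ?_
    push_cast
    have e : p * p * (3 * T) * (3 * T) = 9 * (p * T) ^ 2 := by ring
    rw [e, hpT]
    linarith
  · apply nat_of_real
    refine b4.trans ?_
    push_cast
    have e : 3 * T * (3 * T) * (3 * T) * p = 27 * T ^ 2 * (p * T) := by ring
    rw [e, hpT]
    have h3 : 148 * (H : ℝ) * (27 * T ^ 2 * 1) ≤ 148 * H * (27 * (37 * H) * 1) := by gcongr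
    nlinarith
  · apply nat_of_real
    refine b5.trans ?_
    push_cast
    have e : 3 * T * (3 * T) * (3 * T) * (3 * T) = 81 * T ^ 4 := by ring
    rw [e]
    have h3 : 37 * (H : ℝ) * (81 * T ^ 4) ≤ 37 * H * (81 * (37 * H)) := by gcongr
    nlinarith
  · obtain ⟨m, hm⟩ : ∃ m : ℕ, m = max v₁.natAbs v₂.natAbs := ⟨_, rfl⟩
    rw [← hm]
    have hv1m : |(v₁ : ℝ)| ≤ m := by
      have : |v₁| ≤ (m : ℤ) := by
        rw [Int.abs_eq_natAbs, hm]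
        exact_mod_cast le_max_left _ _
      exact_mod_cast this
    have hv2m : |(v₂ : ℝ)| ≤ m := by
      have : |v₂| ≤ (m : ℤ) := by
        rw [Int.abs_eq_natAbs, hm]
        exact_mod_cast le_max_right _ _
      exact_mod_cast this
    have hdR : (u₁ : ℝ) * v₂ - u₂ * v₁ = 1 := by exact_mod_cast hdet
    have h3 : s1 * v₂ - s2 * v₁ = V := by
      rw [hs1, hs2]
      linear_combination V * hdR
    have h4 : V ≤ 7 * T * m := by
      have t1 : |s1 * v₂ - s2 * v₁| ≤ |s1 * v₂| + |s2 * v₁| := abs_sub _ _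
      rw [h3, abs_of_pos hV0, abs_mul, abs_mul] at t1
      have t2 : |s1| * |(v₂ : ℝ)| ≤ p * m := by gcongr
      have t3 : |s2| * |(v₁ : ℝ)| ≤ 3 * T * m := by gcongr
      have t4 : p ≤ 4 * T := by
        rw [hp, div_le_iff₀ hT0]
        nlinarith
      have hm0 : (0 : ℝ) ≤ m := Nat.cast_nonneg _
      have t5 : p * m ≤ 4 * T * m := by gcongr
      linarith
    have h5 : (x : ℝ) ≤ 150000 * H * (m : ℝ) ^ 4 := by
      rw [← hV4]
      calc V ^ 4 ≤ (7 * T * m) ^ 4 := by gcongr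
        _ = 2401 * T ^ 4 * m ^ 4 := by ring
        _ ≤ 2401 * (37 * H) * m ^ 4 := by gcongr
        _ ≤ _ := by
          have : 0 ≤ (H : ℝ) * (m : ℝ) ^ 4 := by positivity
          nlinarith
    have h6 : |(x : ℝ)| ≤ ((150000 * H * m ^ 4 : ℕ) : ℝ) := by
      rw [abs_of_nonneg (by linarith)]
      push_cast
      exact h5
    exact nat_of_real _ _ h6

end Pool.Agent.W554.HL
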